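import Pool.Agent.Helper21.LR.Stmts

/-!
MP_6358c9_nt, module LR-NOETHER.
-/

open MvPolynomial
open Pool.Agent.Helper21.LR

namespace Pool.Agent.Helper14.LRNoether

/-- column zero degree -/
def wd {m r : ℕ} (α : Fin (r+1) × Fin (m+1) →₀ ℕ) : ℕ := ∑ i, α (i, 0)

/-- scale column zero -/
def scl {m r : ℕ} (T : ℂ) (x : Fin (r+1) × Fin (m+1) → ℂ) : Fin (r+1) × Fin (m+1) → ℂ :=
  fun ij => if ij.2 = 0 then T * x ij else x ij

lemma prod_scl {m r : ℕ} (T : ℂ) (x : Fin (r+1) × Fin (m+1) → ℂ)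
    (α : Fin (r+1) × Fin (m+1) →₀ ℕ) :
    ∏ ij, scl T x ij ^ α ij = T ^ wd α * ∏ ij, x ij ^ α ij := by
  rw [Fintype.prod_prod_type, Fintype.prod_prod_type]
  simp only [Fin.prod_univ_succ (n := m), scl, if_true, Fin.succ_ne_zero, if_false, wd]
  rw [← Finset.prod_pow_eq_pow_sum, ← Finset.prod_mul_distrib]
  refine Finset.prod_congr rfl fun i _ => ?_
  rw [mul_pow]; ring

/-- the polynomial in `T` obtained by scaling column zero -/
noncomputable def PX {m r : ℕ} (F : MvPolynomial (Fin (r+1) × Fin (m+1)) ℤ)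
    (x : Fin (r+1) × Fin (m+1) → ℂ) : Polynomial ℂ :=
  ∑ α ∈ F.support, Polynomial.C (((F.coeff α : ℤ) : ℂ) * ∏ ij, x ij ^ α ij) * Polynomial.X ^ wd α

lemma eval_PX {m r : ℕ} (F : MvPolynomial (Fin (r+1) × Fin (m+1)) ℤ)
    (x : Fin (r+1) × Fin (m+1) → ℂ) (T : ℂ) : (PX F x).eval T = aeval (scl T x) F := by
  rw [aeval_def, eval₂_eq', PX, Polynomial.eval_finsetSum]
  refine Finset.sum_congr rfl fun α _ => ?_
  rw [prod_scl, Polynomial.eval_mul, Polynomial.eval_C, Polynomial.eval_pow, Polynomial.eval_X,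
    eq_intCast]
  ring

/-- the polynomial in `T` obtained by scaling the `(0,0)` entry -/
noncomputable def QX {m r : ℕ} (F : MvPolynomial (Fin (r+1) × Fin (m+1)) ℤ)
    (x : Fin (r+1) × Fin (m+1) → ℂ) : Polynomial ℂ :=
  ∑ α ∈ F.support, Polynomial.C (((F.coeff α : ℤ) : ℂ) * ∏ ij, x ij ^ α ij) *
    Polynomial.X ^ α (0, 0)

lemma eval_QX {m r : ℕ} (F : MvPolynomial (Fin (r+1) × Fin (m+1)) ℤ)
    (x : Fin (r+1) × Fin (m+1) → ℂ) (T : ℂ) :
    (QX F x).eval T = aeval (fun ij => if ij = (0, 0) then T * x ij else x ij) F := by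
  rw [aeval_def, eval₂_eq', QX, Polynomial.eval_finsetSum]
  refine Finset.sum_congr rfl fun α _ => ?_
  have : ∏ ij, (if ij = (0, 0) then T * x ij else x ij) ^ α ij
      = T ^ α (0, 0) * ∏ ij, x ij ^ α ij := by
    have h : ∀ ij : Fin (r+1) × Fin (m+1), (if ij = (0, 0) then T * x ij else x ij) ^ α ij
        = (if ij = (0, 0) then T ^ α ij else 1) * x ij ^ α ij := by
      intro ij
      split_ifs with h
      · rw [mul_pow]
      · rw [one_mul]
    rw [Finset.prod_congr rfl fun ij _ => h ij, Finset.prod_mul_distrib]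
    congr 1
    rw [Finset.prod_ite_eq' Finset.univ ((0 : Fin (r+1)), (0 : Fin (m+1))) fun ij => T ^ α ij]
    simp
  rw [this, Polynomial.eval_mul, Polynomial.eval_C, Polynomial.eval_pow, Polynomial.eval_X,
    eq_intCast]
  ring

lemma natDegree_QX {m r : ℕ} (F : MvPolynomial (Fin (r+1) × Fin (m+1)) ℤ)
    (x : Fin (r+1) × Fin (m+1) → ℂ) : (QX F x).natDegree ≤ F.degreeOf (0, 0) := by
  rw [QX]
  refine Polynomial.natDegree_sum_le_of_forall_le _ _ fun α hα => ?_
  refine (Polynomial.natDegree_C_mul_X_pow_le _ _).trans ?_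
  exact monomial_le_degreeOf _ hα

/-- using the invariance, `PX` has degree at most `degreeOf (0,0) F` -/
lemma natDegree_PX {m r : ℕ} {ξ : Fin m → ℂ} {F : MvPolynomial (Fin (r+1) × Fin (m+1)) ℤ}
    (hI : SInv) (hF : IsVar r ξ F) (x : Fin (r+1) × Fin (m+1) → ℂ) (hx : x (0, 0) = 1) :
    (PX F x).natDegree ≤ F.degreeOf (0, 0) := by
  set c : Fin r → ℂ := fun i => x (i.succ, 0) with hc
  set U : ℂ → Fin r × Fin (m+1) → ℂ := fun T ij =>
    Fin.cases (motive := fun _ => ℂ) 0 (fun j => x (ij.1.succ, j.succ) - c ij.1 * x (0, j.succ))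
      ij.2 with hU
  set w : ℂ → Fin (m+1) → ℂ := fun T => Fin.cons T (fun j => x (0, j.succ)) with hw
  have key : PX F x = QX F (consU (w 1) (U 1)) := by
    refine Polynomial.funext fun T => ?_
    rw [eval_PX, eval_QX]
    have h := hI m r ξ F hF c (w T) (U T)
    have e1 : consU (w T) (fun ij => U T ij + c ij.1 * w T ij.2) = scl T x := by
      funext ij
      obtain ⟨i, j⟩ := ij
      refine Fin.cases ?_ (fun i => ?_) i <;> refine Fin.cases ?_ (fun j => ?_) j
      · simp [consU, scl, hw, hx]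
      · simp [consU, scl, hw]
      · simp [consU, scl, hw, hU, hc, mul_comm]
      · simp [consU, scl, hw, hU, hc]
    have e2 : consU (w T) (U T) =
        fun ij => if ij = (0, 0) then T * consU (w 1) (U 1) ij else consU (w 1) (U 1) ij := by
      funext ij
      obtain ⟨i, j⟩ := ij
      refine Fin.cases ?_ (fun i => ?_) i <;> refine Fin.cases ?_ (fun j => ?_) j
      · simp [consU, hw]
      · simp [consU, hw]
      · simp [consU, hU]
      · simp [consU, hU]
    rw [e1] at h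
    rw [h, e2]
  rw [key]
  exact natDegree_QX F _

lemma totalDegree_map_le' {σ : Type*} (G : MvPolynomial σ ℤ) :
    (map (Int.castRingHom ℚ) G).totalDegree ≤ G.totalDegree := by
  rw [totalDegree, totalDegree]
  exact Finset.sup_mono (support_map_subset _ _)

lemma eq_zero_of_aeval {σ : Type*} (G : MvPolynomial σ ℤ)
    (h : ∀ x : σ → ℂ, aeval x G = 0) : G = 0 := by
  refine MvPolynomial.funext fun z => ?_
  have h1 := h (fun i => (z i : ℂ))
  have h2 : aeval (fun i => (z i : ℂ)) G = ((eval z G : ℤ) : ℂ) := by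
    have := MvPolynomial.aeval_algebraMap_apply (A := ℤ) ℂ z G
    simpa [MvPolynomial.aeval_eq_eval, Function.comp_def] using this
  rw [h2] at h1
  rw [map_zero]
  exact_mod_cast h1

/-- the column zero degree of a Chow form is its degree in `u_00` -/
theorem wd_le {m r : ℕ} {ξ : Fin m → ℂ} {F : MvPolynomial (Fin (r+1) × Fin (m+1)) ℤ}
    (hI : SInv) (hF : IsVar r ξ F) (α : Fin (r+1) × Fin (m+1) →₀ ℕ) (hα : α ∈ F.support) :
    wd α ≤ F.degreeOf (0, 0) := by
  by_contra hlt
  push Not at hlt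
  set e := wd α with he
  classical
  set H : MvPolynomial (Fin (r+1) × Fin (m+1)) ℤ :=
    ∑ β ∈ F.support.filter (fun β => wd β = e), monomial β (F.coeff β) with hH
  have hHne : H ≠ 0 := by
    intro h0
    have : coeff α H = F.coeff α := by
      rw [hH, coeff_sum]
      simp only [coeff_monomial]
      rw [Finset.sum_ite_eq' (F.support.filter (fun β => wd β = e)) α (fun β => F.coeff β)]
      rw [if_pos]
      simp [Finset.mem_filter, hα, he]
    rw [h0, coeff_zero] at this
    exact (mem_support_iff.mp hα) this.symm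
  have hval : ∀ x : Fin (r+1) × Fin (m+1) → ℂ, aeval x H =
      ∑ β ∈ F.support.filter (fun β => wd β = e), ((F.coeff β : ℤ) : ℂ) * ∏ ij, x ij ^ β ij := by
    intro x
    rw [hH, map_sum]
    refine Finset.sum_congr rfl fun β _ => ?_
    rw [aeval_monomial, Finsupp.prod_fintype _ _ (fun i => by simp)]
    simp
  have hone : ∀ x : Fin (r+1) × Fin (m+1) → ℂ, x (0, 0) = 1 → aeval x H = 0 := by
    intro x hx
    have h1 : (PX F x).coeff e = 0 :=
      Polynomial.coeff_eq_zero_of_natDegree_lt ((natDegree_PX hI hF x hx).trans_lt hlt)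
    rw [PX, Polynomial.finsetSum_coeff] at h1
    rw [hval, Finset.sum_filter]
    refine (Finset.sum_congr rfl fun β _ => ?_).trans h1
    rw [Polynomial.coeff_C_mul, Polynomial.coeff_X_pow]
    by_cases h : wd β = e
    · rw [if_pos h, if_pos h.symm, mul_one]
    · rw [if_neg h, if_neg (fun h' => h h'.symm), mul_zero]
  have hall : ∀ x : Fin (r+1) × Fin (m+1) → ℂ, aeval x (H * X (0, 0)) = 0 := by
    intro x
    rw [map_mul, aeval_X]
    by_cases hs : x (0, 0) = 0
    · rw [hs, mul_zero]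
    · have h1 := hone (scl (x (0, 0))⁻¹ x) (by simp [scl, hs])
      have h2 : aeval x H = (x (0, 0)) ^ e * aeval (scl (x (0, 0))⁻¹ x) H := by
        rw [hval, hval, Finset.mul_sum]
        refine Finset.sum_congr rfl fun β hβ => ?_
        rw [prod_scl, (Finset.mem_filter.mp hβ).2, inv_pow]
        have : (x (0, 0)) ^ e ≠ 0 := pow_ne_zero _ hs
        field_simp
      rw [h2, h1, mul_zero, zero_mul]
  have := eq_zero_of_aeval _ hall
  rcases mul_eq_zero.mp this with h | h
  · exact hHne h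
  · exact X_ne_zero _ h


/-- the entries of the substitution, except the `(0,0)` entry -/
noncomputable def kap {m r : ℕ} (v : Fin m → ℤ) (w : Fin r → Fin m → ℤ) :
    Fin (r+1) × Fin (m+1) → MvPolynomial (Fin r) ℤ :=
  fun ij => Fin.cases (motive := fun _ => MvPolynomial (Fin r) ℤ)
    (Fin.cases (motive := fun _ => MvPolynomial (Fin r) ℤ) 1 (fun j => C (- v j)) ij.2)
    (fun i => Fin.cases (motive := fun _ => MvPolynomial (Fin r) ℤ) (- X i)
      (fun j => C (w i j)) ij.2) ij.1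

lemma totalDegree_prod_kap {m r : ℕ} (v : Fin m → ℤ) (w : Fin r → Fin m → ℤ)
    (α : Fin (r+1) × Fin (m+1) →₀ ℕ) :
    (∏ ij, kap v w ij ^ α ij).totalDegree ≤ ∑ i : Fin r, α (i.succ, 0) := by
  refine (totalDegree_finsetProd _ _).trans ?_
  rw [Fintype.sum_prod_type, Fin.sum_univ_succ]
  have h0 : ∑ j : Fin (m+1), (kap v w (0, j) ^ α (0, j)).totalDegree = 0 := by
    refine Finset.sum_eq_zero fun j _ => ?_
    have : (kap v w (0, j)).totalDegree = 0 := by
      refine Fin.cases ?_ (fun j => ?_) j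
      · simp [kap]
      · simp only [kap, Fin.cases_zero, Fin.cases_succ]
        exact totalDegree_C _
    have h2 := totalDegree_pow (kap v w (0, j)) (α (0, j))
    rw [this, mul_zero] at h2
    exact Nat.le_zero.mp h2
  rw [h0, zero_add]
  refine Finset.sum_le_sum fun i _ => ?_
  rw [Fin.sum_univ_succ]
  have h1 : ∑ j : Fin m, (kap v w (i.succ, j.succ) ^ α (i.succ, j.succ)).totalDegree = 0 := by
    refine Finset.sum_eq_zero fun j _ => ?_
    have : (kap v w (i.succ, j.succ)).totalDegree = 0 := by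
      simp only [kap, Fin.cases_succ]
      exact totalDegree_C _
    have h2 := totalDegree_pow (kap v w (i.succ, j.succ)) (α (i.succ, j.succ))
    rw [this, mul_zero] at h2
    exact Nat.le_zero.mp h2
  rw [h1, add_zero]
  refine (totalDegree_pow _ _).trans ?_
  have : (kap v w (i.succ, (0 : Fin (m+1)))).totalDegree ≤ 1 := by
    simp only [kap, Fin.cases_succ, Fin.cases_zero]
    rw [totalDegree_neg, totalDegree_X]
  calc α (i.succ, 0) * (kap v w (i.succ, (0 : Fin (m+1)))).totalDegree ≤ α (i.succ, 0) * 1 :=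
        Nat.mul_le_mul_left _ this
    _ = α (i.succ, 0) := mul_one _

/-- the substituted polynomial in `T` and the `y_i` -/
noncomputable def Phi {m r : ℕ} (F : MvPolynomial (Fin (r+1) × Fin (m+1)) ℤ)
    (v : Fin m → ℤ) (w : Fin r → Fin m → ℤ) : Polynomial (MvPolynomial (Fin r) ℤ) :=
  ∑ α ∈ F.support, Polynomial.C (C (F.coeff α) * ∏ ij, kap v w ij ^ α ij) *
    Polynomial.X ^ α (0, 0)

lemma map_Phi {m r : ℕ} (F : MvPolynomial (Fin (r+1) × Fin (m+1)) ℤ)
    (v : Fin m → ℤ) (w : Fin r → Fin m → ℤ) (y : Fin r → ℂ) :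
    (Phi F v w).map ((aeval y : MvPolynomial (Fin r) ℤ →ₐ[ℤ] ℂ) : MvPolynomial (Fin r) ℤ →+* ℂ) =
      QX F (fun ij => aeval y (kap v w ij)) := by
  rw [Phi, QX, Polynomial.map_sum]
  refine Finset.sum_congr rfl fun α _ => ?_
  rw [Polynomial.map_mul, Polynomial.map_pow, Polynomial.map_X, Polynomial.map_C]
  congr 2
  rw [RingHom.coe_coe, map_mul, map_prod, aeval_C, eq_intCast]
  simp only [map_pow]

lemma totalDegree_coeff_Phi {m r : ℕ} {ξ : Fin m → ℂ}
    {F : MvPolynomial (Fin (r+1) × Fin (m+1)) ℤ} (hI : SInv) (hF : IsVar r ξ F)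
    (v : Fin m → ℤ) (w : Fin r → Fin m → ℤ) (k : ℕ) :
    ((Phi F v w).coeff k).totalDegree ≤ F.degreeOf (0, 0) - k := by
  rw [Phi, Polynomial.finsetSum_coeff]
  refine totalDegree_finsetSum_le fun α hα => ?_
  rw [Polynomial.coeff_C_mul, Polynomial.coeff_X_pow]
  split_ifs with h
  · rw [mul_one]
    refine (totalDegree_mul _ _).trans ?_
    rw [totalDegree_C, zero_add]
    refine (totalDegree_prod_kap v w α).trans ?_
    have h1 := wd_le hI hF α hα
    rw [wd, Fin.sum_univ_succ] at h1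
    omega
  · rw [mul_zero, totalDegree_zero]
    exact Nat.zero_le _

lemma coeff_Phi {m r : ℕ} {ξ : Fin m → ℂ}
    {F : MvPolynomial (Fin (r+1) × Fin (m+1)) ℤ} (S : Split r ξ F)
    (v : Fin m → ℤ) (w : Fin r → Fin m → ℤ)
    (hw : eval (fun ij : Fin r × Fin m => w ij.1 ij.2) S.a ≠ 0) :
    (Phi F v w).coeff (F.degreeOf (0, 0)) =
      C (eval (fun ij : Fin r × Fin m => w ij.1 ij.2) S.a) := by
  set A : ℤ := eval (fun ij : Fin r × Fin m => w ij.1 ij.2) S.a with hA
  rw [← sub_eq_zero]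
  refine eq_zero_of_aeval _ fun y => ?_
  rw [map_sub, aeval_C, eq_intCast, sub_eq_zero]
  have h1 : aeval y ((Phi F v w).coeff (F.degreeOf (0, 0))) =
      (QX F (fun ij => aeval y (kap v w ij))).coeff (F.degreeOf (0, 0)) := by
    rw [← map_Phi, Polynomial.coeff_map, RingHom.coe_coe]
  rw [h1]
  set U : Fin r × Fin (m+1) → ℂ := fun ij =>
    Fin.cases (motive := fun _ => ℂ) (- y ij.1) (fun j => (w ij.1 j : ℂ)) ij.2 with hU
  have hAc : aeval (fun ij : Fin r × Fin m => U (ij.1, ij.2.succ)) S.a = (A : ℂ) := by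
    have := MvPolynomial.aeval_algebraMap_apply (A := ℤ) ℂ
      (fun ij : Fin r × Fin m => w ij.1 ij.2) S.a
    simpa [MvPolynomial.aeval_eq_eval, Function.comp_def, hU] using this
  have hAne : aeval (fun ij : Fin r × Fin m => U (ij.1, ij.2.succ)) S.a ≠ 0 := by
    rw [hAc]; exact_mod_cast hw
  obtain ⟨p, _, _, hfac, _⟩ := S.pts U hAne
  have hpoly : QX F (fun ij => aeval y (kap v w ij)) =
      Polynomial.C (A : ℂ) * ∏ σ : Fin S.δ,
        (Polynomial.X - Polynomial.C (∑ j, (v j : ℂ) * p σ j)) := by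
    refine Polynomial.funext fun T => ?_
    rw [eval_QX, Polynomial.eval_mul, Polynomial.eval_C, Polynomial.eval_prod]
    have e1 : (fun ij : Fin (r+1) × Fin (m+1) =>
        if ij = (0, 0) then T * aeval y (kap v w ij) else aeval y (kap v w ij)) =
        consU (Fin.cons T (fun j => (- v j : ℂ))) U := by
      funext ij
      obtain ⟨i, j⟩ := ij
      refine Fin.cases ?_ (fun i => ?_) i <;> refine Fin.cases ?_ (fun j => ?_) j
      · simp [consU, kap]
      · simp [consU, kap]
      · simp [consU, kap, hU]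
      · simp [consU, kap, hU]
    rw [e1, hfac, hAc]
    congr 1
    refine Finset.prod_congr rfl fun σ _ => ?_
    rw [Polynomial.eval_sub, Polynomial.eval_X, Polynomial.eval_C]
    simp [sub_eq_add_neg, Finset.sum_neg_distrib]
  rw [hpoly, Polynomial.coeff_C_mul, ← S.δ_eq]
  have hm : (∏ σ : Fin S.δ, (Polynomial.X - Polynomial.C (∑ j, (v j : ℂ) * p σ j))).Monic :=
    Polynomial.monic_prod_of_monic _ _ fun σ _ => Polynomial.monic_X_sub_C _
  have hd : (∏ σ : Fin S.δ,
      (Polynomial.X - Polynomial.C (∑ j, (v j : ℂ) * p σ j))).natDegree = S.δ := by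
    rw [Polynomial.natDegree_prod_of_monic _ _ fun σ _ => Polynomial.monic_X_sub_C _]
    simp only [Polynomial.natDegree_X_sub_C, Finset.sum_const, Finset.card_univ, Fintype.card_fin,
      smul_eq_mul, mul_one]
  have := hm.coeff_natDegree
  rw [hd] at this
  rw [this, mul_one]

lemma relation {m r : ℕ} {ξ : Fin m → ℂ}
    {F : MvPolynomial (Fin (r+1) × Fin (m+1)) ℤ} (hF : IsVar r ξ F)
    (v : Fin m → ℤ) (w : Fin r → Fin m → ℤ) :
    (QX F (fun ij => aeval (fun i : Fin r => ∑ j, (w i j : ℂ) * ξ j) (kap v w ij))).eval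
      (∑ j, (v j : ℂ) * ξ j) = 0 := by
  rw [eval_QX]
  have h := (hF.chow.2 F).mpr dvd_rfl (fun ij =>
    Fin.cases (motive := fun _ => ℂ) (- v ij.2 : ℂ) (fun i => (w i ij.2 : ℂ)) ij.1)
  refine Eq.trans ?_ h
  congr 1
  congr 1
  funext ij
  obtain ⟨i, j⟩ := ij
  refine Fin.cases ?_ (fun i => ?_) i <;> refine Fin.cases ?_ (fun j => ?_) j
  · simp [kap, thr]
  · simp [kap, thr]
  · simp [kap, thr]
  · simp [kap, thr]


/-- all coordinates are algebraic over the `y_i` -/
lemma algebraic {m r : ℕ} {ξ : Fin m → ℂ}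
    {F : MvPolynomial (Fin (r+1) × Fin (m+1)) ℤ} (hF : IsVar r ξ F) (S : Split r ξ F)
    (w : Fin r → Fin m → ℤ) (hw : eval (fun ij : Fin r × Fin m => w ij.1 ij.2) S.a ≠ 0)
    (j : Fin m) :
    IsAlgebraic (Algebra.adjoin ℤ (Set.range fun i : Fin r => ∑ j, (w i j : ℂ) * ξ j)) (ξ j) := by
  classical
  set y : Fin r → ℂ := fun i => ∑ j, (w i j : ℂ) * ξ j with hy
  set v : Fin m → ℤ := Pi.single j 1 with hv
  let θ : MvPolynomial (Fin r) ℤ →ₐ[ℤ] Algebra.adjoin ℤ (Set.range y) :=
    aeval (fun i => ⟨y i, Algebra.subset_adjoin ⟨i, rfl⟩⟩)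
  have hθ : ∀ G : MvPolynomial (Fin r) ℤ, ((θ G : Algebra.adjoin ℤ (Set.range y)) : ℂ) =
      aeval y G := by
    intro G
    have h1 : ((Algebra.adjoin ℤ (Set.range y)).val.comp θ) = aeval y := by
      refine MvPolynomial.algHom_ext fun i => ?_
      simp [θ]
    exact DFunLike.congr_fun h1 G
  refine ⟨(Phi F v w).map (θ : MvPolynomial (Fin r) ℤ →+* _), ?_, ?_⟩
  · intro h0
    have h1 := congrArg (fun q => Polynomial.coeff q (F.degreeOf (0, 0))) h0
    simp only [Polynomial.coeff_map, coeff_Phi S v w hw, Polynomial.coeff_zero] at h1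
    rw [RingHom.coe_coe] at h1
    have h2 := hθ (C (eval (fun ij : Fin r × Fin m => w ij.1 ij.2) S.a))
    rw [h1, ZeroMemClass.coe_zero, aeval_C, eq_intCast] at h2
    exact hw (by exact_mod_cast h2.symm)
  · have h1 := relation hF v w
    rw [← map_Phi] at h1
    have h2 : ∑ i, (v i : ℂ) * ξ i = ξ j := by
      rw [Finset.sum_eq_single j]
      · simp [hv]
      · intro b _ hb
        simp [hv, Pi.single_eq_of_ne hb]
      · simp
    rw [h2, Polynomial.eval_map] at h1
    rw [Polynomial.aeval_def, Polynomial.eval₂_map]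
    have hcomp : (algebraMap (Algebra.adjoin ℤ (Set.range y)) ℂ).comp
        (θ : MvPolynomial (Fin r) ℤ →+* _) =
        ((aeval y : MvPolynomial (Fin r) ℤ →ₐ[ℤ] ℂ) : MvPolynomial (Fin r) ℤ →+* ℂ) :=
      RingHom.ext hθ
    rw [hcomp]
    exact h1

lemma indep {m r : ℕ} {ξ : Fin m → ℂ}
    {F : MvPolynomial (Fin (r+1) × Fin (m+1)) ℤ} (hF : IsVar r ξ F) (S : Split r ξ F)
    (w : Fin r → Fin m → ℤ) (hw : eval (fun ij : Fin r × Fin m => w ij.1 ij.2) S.a ≠ 0) :
    AlgebraicIndependent ℚ (fun i : Fin r => ∑ j, (w i j : ℂ) * ξ j) := by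
  set y : Fin r → ℂ := fun i => ∑ j, (w i j : ℂ) * ξ j with hy
  have hsub : Set.range ξ ⊆ (AlgebraicIndependent.matroid ℤ ℂ).closure (Set.range y) := by
    rintro _ ⟨j, rfl⟩
    rw [AlgebraicIndependent.matroid_closure_eq]
    exact algebraic hF S w hw j
  have h1 : (r : ℕ∞) ≤ (AlgebraicIndependent.matroid ℤ ℂ).eRk (Set.range y) := by
    have := hF.dim
    rw [trd, rk] at this
    rw [← this, ← Matroid.eRk_closure_eq _ (Set.range y)]
    exact Matroid.eRk_mono _ hsub
  have h2 : (Set.range y).encard ≤ r := by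
    rw [← Set.image_univ]
    refine (Set.encard_image_le _ _).trans ?_
    rw [Set.encard_univ]
    simp
  have h3 := Matroid.eRk_le_encard (AlgebraicIndependent.matroid ℤ ℂ) (Set.range y)
  have h4 : (Set.range y).encard = r := le_antisymm h2 (h1.trans h3)
  have h5 : (AlgebraicIndependent.matroid ℤ ℂ).Indep (Set.range y) := by
    rw [Matroid.indep_iff_eRk_eq_encard_of_finite (Set.finite_range y)]
    exact le_antisymm h3 (by rw [h4]; exact h1)
  have hinj : Function.Injective y := by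
    rw [← Set.injOn_univ]
    refine Set.Finite.injOn_of_encard_image_eq Set.finite_univ ?_
    rw [Set.image_univ, h4, Set.encard_univ]
    simp
  have h6 : AlgebraicIndependent ℤ y := by
    rw [AlgebraicIndependent.matroid_indep_iff] at h5
    exact (algebraicIndependent_subtype_range hinj).mp h5
  have : Algebra.IsAlgebraic ℤ ℚ := IsLocalization.isAlgebraic (R := ℤ) ℚ (nonZeroDivisors ℤ)
  exact h6.extendScalars ℚ

theorem noether (hS : SSplit) (hI : SInv) : SNoether := by
  intro m r ξ F hF δ hδ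
  obtain ⟨S⟩ := hS m r ξ F hF
  have hδ' : δ = S.δ := by rw [hδ, S.δ_eq]
  refine ⟨hδ' ▸ S.δ_pos, ?_⟩
  obtain ⟨z, hz⟩ : ∃ z : Fin r × Fin m → ℤ, eval z S.a ≠ 0 := by
    by_contra h
    push Not at h
    exact S.a_ne (MvPolynomial.funext fun z => by rw [h z, map_zero])
  set w : Fin r → Fin m → ℤ := fun i j => z (i, j) with hwdef
  have hw : eval (fun ij : Fin r × Fin m => w ij.1 ij.2) S.a ≠ 0 := hz
  set A : ℤ := eval (fun ij : Fin r × Fin m => w ij.1 ij.2) S.a with hA
  refine ⟨w, indep hF S w hw, fun v => ?_⟩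
  set y : Fin r → ℂ := fun i => ∑ j, (w i j : ℂ) * ξ j with hy
  set T : ℂ := ∑ j, (v j : ℂ) * ξ j with hT
  refine ⟨fun i => C (1 / (A : ℚ)) * map (Int.castRingHom ℚ) ((Phi F v w).coeff (δ - 1 - (i : ℕ))),
    ?_, ?_⟩
  · intro i
    refine (totalDegree_mul _ _).trans ?_
    rw [totalDegree_C, zero_add]
    refine (totalDegree_map_le' _).trans ?_
    refine (totalDegree_coeff_Phi hI hF v w _).trans ?_
    rw [← hδ]
    have := i.2
    omega
  · have hAc : (A : ℂ) ≠ 0 := by exact_mod_cast hw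
    have hrel := relation hF v w
    have hnd := natDegree_QX F (fun ij => aeval y (kap v w ij))
    rw [← hδ] at hnd
    rw [Polynomial.eval_eq_sum_range' (Nat.lt_succ_of_le hnd), Finset.sum_range_succ] at hrel
    have hcoef : ∀ k, (QX F (fun ij => aeval y (kap v w ij))).coeff k =
        aeval y ((Phi F v w).coeff k) := by
      intro k
      rw [← map_Phi, Polynomial.coeff_map, RingHom.coe_coe]
    have hlead : (QX F (fun ij => aeval y (kap v w ij))).coeff δ = (A : ℂ) := by
      rw [hcoef, hδ, coeff_Phi S v w hw, aeval_C, eq_intCast]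
    rw [hlead] at hrel
    have hsum : ∑ i : Fin δ, aeval y (C (1 / (A : ℚ)) *
        map (Int.castRingHom ℚ) ((Phi F v w).coeff (δ - 1 - (i : ℕ)))) * T ^ (δ - 1 - (i : ℕ)) =
        (1 / (A : ℂ)) * ∑ k ∈ Finset.range δ,
          (QX F (fun ij => aeval y (kap v w ij))).coeff k * T ^ k := by
      rw [Fin.sum_univ_eq_sum_range (fun i => aeval y (C (1 / (A : ℚ)) *
        map (Int.castRingHom ℚ) ((Phi F v w).coeff (δ - 1 - i))) * T ^ (δ - 1 - i)) δ,
        Finset.sum_range_reflect (fun i => aeval y (C (1 / (A : ℚ)) *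
        map (Int.castRingHom ℚ) ((Phi F v w).coeff i)) * T ^ i) δ, Finset.mul_sum]
      refine Finset.sum_congr rfl fun k _ => ?_
      have e2 : aeval y (map (Int.castRingHom ℚ) ((Phi F v w).coeff k)) =
          aeval y ((Phi F v w).coeff k) := by
        rw [aeval_def, eval₂_map, aeval_def]
        congr 1
      rw [hcoef, map_mul, aeval_C, e2]
      have e3 : (algebraMap ℚ ℂ) (1 / (A : ℚ)) = 1 / (A : ℂ) := by simp
      rw [e3]
      ring
    rw [hsum]
    have e4 : T ^ δ = (1 / (A : ℂ)) * ((A : ℂ) * T ^ δ) := by field_simp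
    rw [e4, ← mul_add, add_comm, hrel, mul_zero]

end Pool.Agent.Helper14.LRNoether

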