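/-
Module QP-B4 (tree argument) for MP_55050e_al.
-/
import Pool.Agent.Helper29.QP.Defs
import Pool.Agent.Helper92.QPB23

open MonoidAlgebra Module

namespace Pool.Agent.Helper14.QPB4

open Pool.Agent.Helper29.QP

universe u

section heads

variable {X : Type} [DecidableEq X]

/-- first letter of the reduced word -/
def hd (g : FreeGroup X) : Option (X × Bool) := g.toWord.head?

omit [DecidableEq X] in
lemma linv_linv (s : X × Bool) : linv (linv s) = s := by simp [linv]

omit [DecidableEq X] in
lemma mk_linv (s : X × Bool) : (FreeGroup.mk [linv s] : FreeGroup X) = (FreeGroup.mk [s])⁻¹ := by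
  simp [linv, FreeGroup.inv_mk, FreeGroup.invRev]

lemma hd_one : hd (1 : FreeGroup X) = none := by simp [hd]

lemma hd_eq_none {g : FreeGroup X} (h : hd g = none) : g = 1 := by
  simpa [hd] using h

lemma toWord_cons (s : X × Bool) (h : FreeGroup X) :
    (FreeGroup.mk [s] * h).toWord =
      if hd h = some (linv s) then h.toWord.tail else s :: h.toWord := by
  have h1 : (FreeGroup.mk [s] * h).toWord = FreeGroup.reduce (s :: h.toWord) := by
    rw [FreeGroup.toWord_mul]
    simp [FreeGroup.toWord_mk]
  rw [h1, FreeGroup.reduce.cons, FreeGroup.reduce_toWord]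
  unfold hd
  cases hw : h.toWord with
  | nil => simp
  | cons t tl =>
    simp only [List.head?_cons, Option.some.injEq, List.tail_cons, linv]
    congr 1
    apply propext
    constructor
    · rintro ⟨h1, h2⟩
      ext
      · simp [h1]
      · simp [h2]
    · rintro rfl
      simp

lemma hd_cons (s : X × Bool) (h : FreeGroup X) :
    hd (FreeGroup.mk [s] * h) = some s ↔ hd h ≠ some (linv s) := by
  unfold hd
  rw [toWord_cons]
  split_ifs with h1
  · constructor
    · intro h2
      exfalso
      unfold hd at h1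
      have h3 := FreeGroup.isReduced_toWord (x := h)
      cases hw : h.toWord with
      | nil => simp [hw] at h1
      | cons t tl =>
        rw [hw] at h1 h2 h3
        simp only [List.head?_cons, Option.some.injEq, List.tail_cons] at h1 h2
        cases tl with
        | nil => simp at h2
        | cons t2 tl2 =>
          simp only [List.head?_cons, Option.some.injEq] at h2
          rw [FreeGroup.isReduced_cons_cons] at h3
          have := h3.1
          subst h1 h2
          simp [linv] at this
    · intro h2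
      exact absurd h1 h2
  · simp only [List.head?_cons, true_iff]
    exact h1

lemma norm_cons (s : X × Bool) (h : FreeGroup X) (h1 : hd h ≠ some (linv s)) :
    (FreeGroup.mk [s] * h).norm = h.norm + 1 := by
  unfold FreeGroup.norm
  rw [toWord_cons, if_neg h1]
  simp

/-- moving the base point along the letter `a` -/
lemma hd_move (z g : FreeGroup X) (a : X × Bool) :
    hd ((z * FreeGroup.mk [a])⁻¹ * g) = some (linv a) ↔ hd (z⁻¹ * g) ≠ some a := by
  have h1 : (z * FreeGroup.mk [a])⁻¹ * g = FreeGroup.mk [linv a] * (z⁻¹ * g) := by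
    rw [mk_linv]; group
  rw [h1, hd_cons, linv_linv]

lemma hd_sub {z g : FreeGroup X} {a b : X × Bool} (hb : b ≠ linv a)
    (h : hd ((z * FreeGroup.mk [a])⁻¹ * g) = some b) : hd (z⁻¹ * g) = some a := by
  by_contra h1
  rw [← ne_eq, ← hd_move, h] at h1
  exact hb (Option.some.inj h1)

lemma hd_self (z : FreeGroup X) (b : X × Bool) : hd (z⁻¹ * (z * FreeGroup.mk [b])) = some b := by
  have h1 : z⁻¹ * (z * FreeGroup.mk [b]) = FreeGroup.mk [b] * 1 := by group
  rw [h1, hd_cons, hd_one]
  simp

lemma norm_move {z : FreeGroup X} {a : X × Bool} (h : hd z⁻¹ ≠ some a) :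
    (z * FreeGroup.mk [a]).norm = z.norm + 1 := by
  rw [← FreeGroup.norm_inv_eq, ← FreeGroup.norm_inv_eq (x := z), mul_inv_rev, ← mk_linv]
  apply norm_cons
  rwa [linv_linv]

end heads

section base

variable {K : Type u} [Field K] {X : Type} [DecidableEq X]

omit [Field K] in
lemma letter_step (f : FreeGroup X → K) (N : ℕ)
    (hN : ∀ g x, f (g * FreeGroup.of x) ≠ f g → g.norm < N ∧ (g * FreeGroup.of x).norm < N)
    (z : FreeGroup X) (b : X × Bool) (hz : N ≤ z.norm) : f (z * FreeGroup.mk [b]) = f z := by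
  obtain ⟨x, s⟩ := b
  cases s with
  | true =>
    by_contra h
    have := (hN z x h).1
    omega
  | false =>
    by_contra h
    have e1 : (FreeGroup.mk [(x, false)] : FreeGroup X) = (FreeGroup.of x)⁻¹ := by
      simp [FreeGroup.of, FreeGroup.inv_mk, FreeGroup.invRev]
    rw [e1] at h
    have h2 : f (z * (FreeGroup.of x)⁻¹ * FreeGroup.of x) ≠ f (z * (FreeGroup.of x)⁻¹) := by
      rw [inv_mul_cancel_right]
      exact fun h' => h h'.symm
    have := (hN _ x h2).2
    rw [inv_mul_cancel_right] at this
    omega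

omit [Field K] in
lemma base_case (f : FreeGroup X → K) (N : ℕ)
    (hN : ∀ g x, f (g * FreeGroup.of x) ≠ f g → g.norm < N ∧ (g * FreeGroup.of x).norm < N) :
    ∀ (k : ℕ) (z : FreeGroup X) (a : X × Bool) (g : FreeGroup X), (z⁻¹ * g).norm ≤ k →
      N ≤ z.norm → hd z⁻¹ ≠ some a → hd (z⁻¹ * g) = some a →
      f g = f (z * FreeGroup.mk [a]) := by
  intro k
  induction k with
  | zero =>
    intro z a g h0 _ _ h3
    have : z⁻¹ * g = 1 := by
      rw [← FreeGroup.norm_eq_zero]; omega
    rw [this, hd_one] at h3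
    simp at h3
  | succ k ih =>
    intro z a g hk hz h1 h2
    set z' := z * FreeGroup.mk [a] with hz'
    cases hh : hd (z'⁻¹ * g) with
    | none =>
      have := hd_eq_none hh
      rw [inv_mul_eq_one] at this
      rw [this]
    | some b =>
      have hb : b ≠ linv a := by
        rintro rfl
        rw [hz', hd_move] at hh
        exact hh h2
      have hn : z'.norm = z.norm + 1 := norm_move h1
      have e : z⁻¹ * g = FreeGroup.mk [a] * (z'⁻¹ * g) := by rw [hz']; group
      have hn2 : (z⁻¹ * g).norm = (z'⁻¹ * g).norm + 1 := by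
        rw [e]
        apply norm_cons
        rw [hh]
        intro h
        exact hb (Option.some.inj h)
      have h3 : hd z'⁻¹ ≠ some b := by
        have : hd ((z * FreeGroup.mk [a])⁻¹ * 1) = some (linv a) := by
          rw [hd_move, mul_one]; exact h1
        rw [mul_one] at this
        rw [hz', this]
        intro h
        exact hb (Option.some.inj h).symm
      rw [ih z' b g (by omega) (by omega) h3 hh]
      exact letter_step f N hN z' b (by omega)

end base

section main

variable {K : Type u} [Field K] {X : Type} [DecidableEq X]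

/-- letters with periodic indices -/
def c {n : ℕ} (cw : Fin (n + 1) → X × Bool) (i : ℕ) : X × Bool := cw (Fin.ofNat (n + 1) i)

/-- prefixes -/
def p {n : ℕ} (cw : Fin (n + 1) → X × Bool) : ℕ → FreeGroup X
  | 0 => 1
  | i + 1 => p cw i * FreeGroup.mk [c cw i]

omit [DecidableEq X] in
lemma c_succ {n : ℕ} (cw : Fin (n + 1) → X × Bool) (hred : CycRed cw) (i : ℕ) :
    c cw (i + 1) ≠ linv (c cw i) := by
  have := hred (Fin.ofNat (n + 1) i)
  have e : Fin.ofNat (n + 1) (i + 1) = Fin.ofNat (n + 1) i + 1 := by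
    ext
    simp [Fin.val_add]
  unfold c
  rw [e]
  exact this

omit [DecidableEq X] in
lemma c_val {n : ℕ} (cw : Fin (n + 1) → X × Bool) (i : Fin (n + 1)) : c cw i = cw i := by
  unfold c
  congr 1
  ext
  simp

omit [DecidableEq X] in
lemma c_val_succ {n : ℕ} (cw : Fin (n + 1) → X × Bool) (i : Fin (n + 1)) :
    c cw (i + 1 : ℕ) = cw (i + 1) := by
  unfold c
  congr 1
  ext
  simp [Fin.val_add]

omit [DecidableEq X] in
lemma p_eq_take {n : ℕ} (cw : Fin (n + 1) → X × Bool) (i : ℕ) (hi : i ≤ n + 1) :
    p cw i = FreeGroup.mk ((List.ofFn cw).take i) := by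
  induction i with
  | zero => simp [p, FreeGroup.one_eq_mk]
  | succ i ih =>
    have hlt : i < (List.ofFn cw).length := by simp; omega
    rw [p, ih (by omega), FreeGroup.mul_mk, List.take_succ_eq_append_getElem hlt]
    congr 3
    simp only [List.getElem_ofFn]
    have := c_val cw ⟨i, by omega⟩
    simpa using this

omit [DecidableEq X] in
lemma p_last {n : ℕ} (cw : Fin (n + 1) → X × Bool) :
    p cw (n + 1) = FreeGroup.mk (List.ofFn cw) := by
  rw [p_eq_take cw (n + 1) le_rfl]
  congr 1
  apply List.take_of_length_le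
  simp

lemma seg_fwd {n : ℕ} (cw : Fin (n + 1) → X × Bool) (hred : CycRed cw) (k : ℕ) :
    ∀ i, hd ((p cw i)⁻¹ * p cw (i + k + 1)) = some (c cw i) := by
  induction k with
  | zero =>
    intro i
    simp only [p]
    exact hd_self _ _
  | succ k ih =>
    intro i
    have e : (p cw i)⁻¹ * p cw (i + (k + 1) + 1) =
        FreeGroup.mk [c cw i] * ((p cw (i + 1))⁻¹ * p cw (i + (k + 1) + 1)) := by
      rw [show p cw (i + 1) = p cw i * FreeGroup.mk [c cw i] from rfl]
      group
    rw [e, hd_cons, show i + (k + 1) + 1 = (i + 1) + k + 1 by ring, ih (i + 1)]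
    intro h
    exact c_succ cw hred i (Option.some.inj h)

lemma seg_bwd {n : ℕ} (cw : Fin (n + 1) → X × Bool) (hred : CycRed cw) (k : ℕ) :
    ∀ i, hd ((p cw (i + k + 1))⁻¹ * p cw i) = some (linv (c cw (i + k))) := by
  induction k with
  | zero =>
    intro i
    simp only [add_zero, p]
    rw [hd_move]
    simp [hd_one]
  | succ k ih =>
    intro i
    rw [show p cw (i + (k + 1) + 1) = p cw (i + (k + 1)) * FreeGroup.mk [c cw (i + (k + 1))]
      from rfl, hd_move]
    rw [show i + (k + 1) = i + k + 1 by ring, ih i]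
    intro h
    exact c_succ cw hred (i + k) (Option.some.inj h).symm

lemma seg_fwd' {n : ℕ} (cw : Fin (n + 1) → X × Bool) (hred : CycRed cw) {i j : ℕ} (h : i < j) :
    hd ((p cw i)⁻¹ * p cw j) = some (c cw i) := by
  have := seg_fwd cw hred (j - i - 1) i
  rwa [show i + (j - i - 1) + 1 = j by omega] at this

lemma seg_bwd' {n : ℕ} (cw : Fin (n + 1) → X × Bool) (hred : CycRed cw) {i j : ℕ} (h : i < j) :
    hd ((p cw j)⁻¹ * p cw i) = some (linv (c cw (j - 1))) := by
  have := seg_bwd cw hred (j - i - 1) i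
  rwa [show i + (j - i - 1) + 1 = j by omega, show i + (j - i - 1) = j - 1 by omega] at this

lemma p_inj {n : ℕ} (cw : Fin (n + 1) → X × Bool) (hred : CycRed cw) {i j : ℕ}
    (h : p cw i = p cw j) : i = j := by
  rcases lt_trichotomy i j with h1 | h1 | h1
  · have := seg_fwd' cw hred h1
    rw [h] at this
    simp [hd_one] at this
  · exact h1
  · have := seg_fwd' cw hred h1
    rw [h] at this
    simp [hd_one] at this

/-- the conclusion of QP-B23, first part -/
def ValConst {n : ℕ} (K : Type u) (cw : Fin (n + 1) → X × Bool) : Prop :=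
  ∀ (a : X × Bool) (val : X × Bool → K),
    (∀ i, linv (cw i) ≠ a → cw (i + 1) ≠ a → val (linv (cw i)) = val (cw (i + 1))) →
    ∀ b c, b ≠ a → c ≠ a → val b = val c

omit [Field K] in
lemma key {n : ℕ} (cw : Fin (n + 1) → X × Bool) (hred : CycRed cw) (hvc : ValConst K cw)
    (f : FreeGroup X → K) (hw : ∀ g, g ≠ 1 → f (g * p cw (n + 1)) = f g)
    (z : FreeGroup X) (a : X × Bool)
    (hval : ∀ b, b ≠ a → ∀ g, hd (z⁻¹ * g) = some b → f g = f (z * FreeGroup.mk [b]))
    (h0 : z = p cw 0 → c cw 0 = a)
    (hi : ∀ i, i < n → z = p cw (i + 1) → c cw (i + 1) = a ∨ linv (c cw i) = a)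
    (hzw : z ≠ p cw (n + 1)) :
    ∀ g, hd (z⁻¹ * g) ≠ some a → f g = f z := by
  -- values
  set val : X × Bool → K := fun b => f (z * FreeGroup.mk [b]) with hvaldef
  have hval' : ∀ b, b ≠ a → ∀ g, hd (z⁻¹ * g) = some b → f g = val b := hval
  -- the wrap-around edge
  have hz1 : z ≠ 1 → hd (z⁻¹ * (z * p cw (n + 1))) = some (c cw 0) := by
    intro _
    have := seg_fwd' cw hred (Nat.succ_pos n)
    simpa [p] using this
  have hz2 : hd (z⁻¹ * (z * (p cw (n + 1))⁻¹)) = some (linv (c cw n)) := by
    have := seg_bwd' cw hred (Nat.succ_pos n)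
    simpa [p] using this
  have hcon1 : c cw 0 ≠ a → val (c cw 0) = f z := by
    intro h
    have hz : z ≠ 1 := by
      intro hz
      exact h (h0 (by rw [hz]; rfl))
    rw [← hval' _ h _ (hz1 hz), hw z hz]
  have hcon2 : linv (c cw n) ≠ a → val (linv (c cw n)) = f z := by
    intro h
    rw [← hval' _ h _ hz2]
    have hne : z * (p cw (n + 1))⁻¹ ≠ 1 := by
      intro h'
      exact hzw (mul_inv_eq_one.1 h')
    rw [← hw _ hne, inv_mul_cancel_right]
  have hcyc : c cw (n + 1) = c cw 0 := by
    unfold c
    congr 1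
    ext
    simp
  have hedge : ∀ i : Fin (n + 1), linv (cw i) ≠ a → cw (i + 1) ≠ a →
      val (linv (cw i)) = val (cw (i + 1)) := by
    intro i h1 h2
    rw [← c_val cw i] at h1 ⊢
    rw [← c_val_succ cw i] at h2 ⊢
    by_cases hlast : (i : ℕ) = n
    · rw [hlast] at h1 h2 ⊢
      rw [hcyc] at h2 ⊢
      rw [hcon1 h2, hcon2 h1]
    · have hlt : (i : ℕ) < n := by
        have := i.2
        omega
      have hne : z * (p cw (i + 1 : ℕ))⁻¹ ≠ 1 := by
        intro h'
        rcases hi i hlt (mul_inv_eq_one.1 h') with h | h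
        · exact h2 h
        · exact h1 h
      have e1 : hd (z⁻¹ * (z * (p cw (i + 1 : ℕ))⁻¹)) = some (linv (c cw i)) := by
        have := seg_bwd' cw hred (Nat.succ_pos (i : ℕ))
        simpa [p] using this
      have e2 : hd (z⁻¹ * (z * (p cw (i + 1 : ℕ))⁻¹ * p cw (n + 1))) =
          some (c cw (i + 1 : ℕ)) := by
        have := seg_fwd' cw hred (show (i : ℕ) + 1 < n + 1 by omega)
        rw [← this]
        congr 1
        group
      rw [← hval' _ h1 _ e1, ← hval' _ h2 _ e2, hw _ hne]
  have hconst := hvc a val hedge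
  have hne : linv (c cw n) ≠ c cw 0 := by
    rw [← hcyc]
    exact (c_succ cw hred n).symm
  have hfz : ∀ b, b ≠ a → val b = f z := by
    intro b hb
    by_cases h : c cw 0 = a
    · have h2 : linv (c cw n) ≠ a := by rw [← h]; exact hne
      rw [hconst b _ hb h2, hcon2 h2]
    · rw [hconst b _ hb h, hcon1 h]
  intro g hg
  cases hh : hd (z⁻¹ * g) with
  | none =>
    have := hd_eq_none hh
    rw [inv_mul_eq_one] at this
    rw [this]
  | some b =>
    have hb : b ≠ a := by
      rintro rfl
      exact hg hh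
    rw [hval' b hb g hh, hfz b hb]

lemma step_i {n : ℕ} (cw : Fin (n + 1) → X × Bool) (hred : CycRed cw) (hvc : ValConst K cw)
    (f : FreeGroup X → K) (hw : ∀ g, g ≠ 1 → f (g * p cw (n + 1)) = f g) (N : ℕ)
    (hN : ∀ g x, f (g * FreeGroup.of x) ≠ f g → g.norm < N ∧ (g * FreeGroup.of x).norm < N) :
    ∀ (k : ℕ) (z : FreeGroup X) (a : X × Bool), N ≤ z.norm + k →
      (∀ j, j ≤ n + 1 → hd (z⁻¹ * p cw j) ≠ some a) →
      ∀ g, hd (z⁻¹ * g) = some a → f g = f (z * FreeGroup.mk [a]) := by
  intro k
  induction k with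
  | zero =>
    intro z a hz hσ g hg
    refine base_case f N hN _ z a g le_rfl (by omega) ?_ hg
    have := hσ 0 (Nat.zero_le _)
    simpa [p] using this
  | succ k ih =>
    intro z a hz hσ g hg
    have h1 : hd z⁻¹ ≠ some a := by
      have := hσ 0 (Nat.zero_le _)
      simpa [p] using this
    have hn := norm_move h1
    have hz' : ∀ j, j ≤ n + 1 → z * FreeGroup.mk [a] ≠ p cw j := by
      intro j hj h
      have := hσ j hj
      rw [← h] at this
      exact this (hd_self z a)
    refine key cw hred hvc f hw (z * FreeGroup.mk [a]) (linv a) ?_ ?_ ?_ ?_ g ?_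
    · intro b hb g' hg'
      refine ih (z * FreeGroup.mk [a]) b (by omega) ?_ g' hg'
      intro j hj h
      exact hσ j hj (hd_sub hb h)
    · intro h
      exact absurd h (hz' 0 (Nat.zero_le _))
    · intro i hi h
      exact absurd h (hz' (i + 1) (by omega))
    · exact hz' (n + 1) le_rfl
    · intro h
      rw [hd_move] at h
      exact h hg

lemma step_ii {n : ℕ} (cw : Fin (n + 1) → X × Bool) (hred : CycRed cw) (hvc : ValConst K cw)
    (f : FreeGroup X → K) (hw : ∀ g, g ≠ 1 → f (g * p cw (n + 1)) = f g) (N : ℕ)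
    (hN : ∀ g x, f (g * FreeGroup.of x) ≠ f g → g.norm < N ∧ (g * FreeGroup.of x).norm < N) :
    ∀ i : ℕ, i ≤ n → ∀ g, hd ((p cw i)⁻¹ * g) ≠ some (c cw i) → f g = f 1 := by
  intro i
  induction i with
  | zero =>
    intro _ g hg
    have := key cw hred hvc f hw (p cw 0) (c cw 0) ?_ (fun _ => rfl) ?_ ?_ g hg
    · exact this
    · intro b hb g' hg'
      refine step_i cw hred hvc f hw N hN N _ b (by omega) ?_ g' hg'
      intro j hj h
      rcases Nat.eq_zero_or_pos j with h0 | h0
      · subst h0
        simp [hd_one] at h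
      · rw [seg_fwd' cw hred h0] at h
        exact hb (Option.some.inj h).symm
    · intro j hj h
      have := p_inj cw hred h
      omega
    · intro h
      have := p_inj cw hred h
      omega
  | succ i ih =>
    intro hi g hg
    have h1 : f 1 = f (p cw (i + 1)) ∧ f g = f (p cw (i + 1)) := by
      have hk := key cw hred hvc f hw (p cw (i + 1)) (c cw (i + 1)) ?_ ?_ ?_ ?_
      · refine ⟨hk 1 ?_, hk g hg⟩
        have := seg_bwd' cw hred (Nat.succ_pos i)
        rw [show (1 : FreeGroup X) = p cw 0 from rfl, this]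
        intro h
        exact c_succ cw hred i (Option.some.inj h).symm
      · intro b hb g' hg'
        by_cases hb2 : b = linv (c cw i)
        · have hA : ∀ g', hd ((p cw (i + 1))⁻¹ * g') = some b → f g' = f 1 := by
            intro g' hg'
            apply ih (by omega)
            rw [hb2, show p cw (i + 1) = p cw i * FreeGroup.mk [c cw i] from rfl, hd_move] at hg'
            exact hg'
          rw [hA g' hg', hA _ (hd_self _ _)]
        · refine step_i cw hred hvc f hw N hN N _ b (by omega) ?_ g' hg'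
          intro j hj h
          rcases lt_trichotomy j (i + 1) with h0 | h0 | h0
          · rw [seg_bwd' cw hred h0] at h
            exact hb2 (Option.some.inj h).symm
          · subst h0
            simp [hd_one] at h
          · rw [seg_fwd' cw hred h0] at h
            exact hb (Option.some.inj h).symm
      · intro h
        have := p_inj cw hred h
        omega
      · intro j hj h
        have := p_inj cw hred h
        left
        rw [this]
      · intro h
        have := p_inj cw hred h
        omega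
    rw [h1.1, h1.2]

end main

/-- the tree argument, with the two combinatorial lemmas of QP-B23 as hypotheses -/
theorem tree_argument_of {K : Type u} [Field K] {X : Type}
    [Finite X] {n : ℕ} (cw : Fin (n + 1) → X × Bool) (hred : CycRed cw)
    (hvc : ∀ (a : X × Bool) (val : X × Bool → K),
      (∀ i, linv (cw i) ≠ a → cw (i + 1) ≠ a → val (linv (cw i)) = val (cw (i + 1))) →
      ∀ b c, b ≠ a → c ≠ a → val b = val c)
    (hdo : ∀ Z : Set (X × Bool), cw 0 ∈ Z → linv (cw (Fin.last n)) ∉ Z →
      (∀ i, i ≠ Fin.last n → (linv (cw i) ∈ Z ↔ cw (i + 1) ∈ Z)) → ∃ x, deg cw x = 1)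
    (f : FreeGroup X → K)
    (hf : ∀ x, {g | f (g * FreeGroup.of x) ≠ f g}.Finite)
    (hw1 : f (FreeGroup.mk (List.ofFn cw)) = f 1 + 1)
    (hw : ∀ g, g ≠ 1 → f (g * FreeGroup.mk (List.ofFn cw)) = f g) : ∃ x, deg cw x = 1 := by
  classical
  rw [← p_last] at hw1
  simp only [← p_last] at hw
  -- the bound for the finite coboundary
  obtain ⟨N, hN⟩ : ∃ N : ℕ, ∀ g x, f (g * FreeGroup.of x) ≠ f g →
      g.norm < N ∧ (g * FreeGroup.of x).norm < N := by
    have hfin : (⋃ x, {g | f (g * FreeGroup.of x) ≠ f g}).Finite := Set.finite_iUnion hf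
    have h1 : ((fun g : FreeGroup X => g.norm) '' (⋃ x, {g | f (g * FreeGroup.of x) ≠ f g})).Finite
      := hfin.image _
    obtain ⟨M, hM⟩ := h1.bddAbove
    refine ⟨M + 2, fun g x hgx => ?_⟩
    have h2 : g.norm ≤ M := hM ⟨g, Set.mem_iUnion.2 ⟨x, hgx⟩, rfl⟩
    have h3 : (g * FreeGroup.of x).norm ≤ g.norm + 1 := by
      refine (FreeGroup.norm_mul_le _ _).trans ?_
      simp
    constructor <;> omega
  have hvc' : ValConst K cw := hvc
  have hi := step_i cw hred hvc' f hw N hN
  have hii := step_ii cw hred hvc' f hw N hN n le_rfl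
  set w := p cw (n + 1) with hwdef
  have hwne : w ≠ 1 := by
    intro h
    have := p_inj cw hred (show p cw (n + 1) = p cw 0 from h)
    omega
  -- `f` is constant in all directions at `w`
  have hlin : ∀ g, hd (w⁻¹ * g) = some (linv (c cw n)) → f g = f 1 := by
    intro g hg
    apply hii
    rw [hwdef, show p cw (n + 1) = p cw n * FreeGroup.mk [c cw n] from rfl, hd_move] at hg
    exact hg
  have hconst : ∀ b g, hd (w⁻¹ * g) = some b → f g = f (w * FreeGroup.mk [b]) := by
    intro b g hg
    by_cases hb : b = linv (c cw n)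
    · subst hb
      rw [hlin g hg, hlin _ (hd_self _ _)]
    · refine hi N _ b (by omega) ?_ g hg
      intro j hj h
      rcases lt_or_eq_of_le hj with h0 | h0
      · rw [hwdef, seg_bwd' cw hred h0] at h
        exact hb (Option.some.inj h).symm
      · subst h0
        simp [hwdef, hd_one] at h
  have hcyc : c cw (n + 1) = c cw 0 := by
    unfold c
    congr 1
    ext
    simp
  have hc0 : c cw 0 = cw 0 := c_val cw 0
  have hcn : c cw n = cw (Fin.last n) := c_val cw (Fin.last n)
  refine hdo {b | f (w * FreeGroup.mk [b]) ≠ f 1} ?_ ?_ ?_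
  · -- cw 0
    have h1 : hd (w⁻¹ * (w * w)) = some (c cw 0) := by
      have h5 : hd ((p cw 0)⁻¹ * w) = some (c cw 0) := seg_fwd' cw hred (Nat.succ_pos n)
      rw [show p cw 0 = 1 from rfl, inv_one, one_mul] at h5
      rw [inv_mul_cancel_left]
      exact h5
    have h2 := hconst _ _ h1
    rw [hw w hwne, hw1, hc0] at h2
    simp only [Set.mem_ofPred_eq, ← h2]
    simp
  · simp only [Set.mem_ofPred_eq, not_not]
    rw [← hcn]
    exact hlin _ (hd_self _ _)
  · intro i hilast
    have hlt : (i : ℕ) < n := by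
      have := i.2
      have h2 : (i : ℕ) ≠ n := by
        intro h
        apply hilast
        ext
        simpa using h
      omega
    have e1 : hd (w⁻¹ * (w * (p cw (i + 1 : ℕ))⁻¹)) = some (linv (c cw i)) := by
      have := seg_bwd' cw hred (Nat.succ_pos (i : ℕ))
      simpa [p] using this
    have e2 : hd (w⁻¹ * (w * (p cw (i + 1 : ℕ))⁻¹ * w)) = some (c cw (i + 1 : ℕ)) := by
      have h5 : hd ((p cw (i + 1 : ℕ))⁻¹ * w) = some (c cw (i + 1 : ℕ)) :=
        seg_fwd' cw hred (show (i : ℕ) + 1 < n + 1 by omega)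
      rw [← h5]
      congr 1
      group
    have hne : w * (p cw (i + 1 : ℕ))⁻¹ ≠ 1 := by
      intro h'
      have := p_inj cw hred (mul_inv_eq_one.1 h')
      omega
    have h3 := hconst _ _ e1
    have h4 := hconst _ _ e2
    rw [hw _ hne, h3] at h4
    rw [← c_val cw i, ← c_val_succ cw i]
    simp only [Set.mem_ofPred_eq, h4]

/-- QP-B4 -/
theorem tree_argument {K : Type u} [Field K] {X : Type}
    [Finite X] {n : ℕ} (cw : Fin (n + 1) → X × Bool) (hred : CycRed cw)
    (hocc : ∀ x, ∃ i, (cw i).1 = x) (hmin : WMin cw) (f : FreeGroup X → K)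
    (hf : ∀ x, {g | f (g * FreeGroup.of x) ≠ f g}.Finite)
    (hw1 : f (FreeGroup.mk (List.ofFn cw)) = f 1 + 1)
    (hw : ∀ g, g ≠ 1 → f (g * FreeGroup.mk (List.ofFn cw)) = f g) : ∃ x, deg cw x = 1 :=
  tree_argument_of cw hred
    (fun a val hval => Pool.Agent.Helper92.QP.val_const cw hred hocc hmin a val hval)
    (fun Z h0 hl hZ => Pool.Agent.Helper92.QP.exists_deg_one cw hmin hocc Z h0 hl hZ)
    f hf hw1 hw

end Pool.Agent.Helper14.QPB4
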